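import Pool.Agent.Helper7.FFT

/-!
A version of the first fundamental theorem for `SL_2` in which, for unitary labels, only pairs of
slots with conjugate labels are joined.
-/

namespace Pool.Agent.Helper7

variable {R C T0 : Type*} [DecidableEq R] [DecidableEq C] [DecidableEq T0] (cls : R → C)
  (lab : R → T0) (cj : T0 → T0) (un : T0 → Prop)

/-- products of alternating forms over a perfect matching within the classes, slots with unitary
labels being joined to slots with the conjugate label -/
inductive GMb : Finset R → ((R → Fin 2) → ℂ) → Prop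
  | nil : GMb ∅ (fun _ => 1)
  | cons {T : Finset R} {g : (R → Fin 2) → ℂ} (r s0 : R) : GMb T g → r ∉ T → s0 ∉ T → r ≠ s0 →
      cls r = cls s0 → (un (lab r) → lab s0 = cj (lab r)) →
      GMb (insert r (insert s0 T)) (fun s => om (s r) (s s0) * g s)

/-- balanced sets of slots -/
def Bal (T : Finset R) : Prop :=
  ∀ t, un t → (T.filter (fun r => lab r = t)).card = (T.filter (fun r => lab r = cj t)).card

omit [DecidableEq C] in
lemma card_filter_insert2 {T : Finset R} {r s0 : R} (hr : r ∉ T) (hs : s0 ∉ T) (hne : r ≠ s0)
    (p : R → Prop) [DecidablePred p] : ((insert r (insert s0 T)).filter p).card =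
      (if p r then 1 else 0) + ((if p s0 then 1 else 0) + (T.filter p).card) := by
  rw [Finset.card_filter, Finset.sum_insert, Finset.sum_insert hs, Finset.card_filter]
  rw [Finset.mem_insert]
  rintro (h | h)
  · exact hne h
  · exact hr h

variable {cls lab cj un}

omit [DecidableEq C] in
lemma bal_remove (hcj : ∀ t, cj (cj t) = t) (hun : ∀ t, un t → un (cj t))
    (hcls : ∀ r r1, un (lab r) → cls r = cls r1 → lab r1 = lab r ∨ lab r1 = cj (lab r))
    {T : Finset R} {r s0 : R} (hr : r ∉ T) (hs : s0 ∉ T) (hne : r ≠ s0) (hc : cls r = cls s0)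
    (hl : un (lab r) → lab s0 = cj (lab r))
    (hb : Bal lab cj un (insert r (insert s0 T))) : Bal lab cj un T := by
  intro t ht
  have h := hb t ht
  rw [card_filter_insert2 hr hs hne, card_filter_insert2 hr hs hne] at h
  by_cases hu : un (lab r)
  · rw [hl hu] at h
    have e1 : (lab r = t) ↔ (cj (lab r) = cj t) :=
      ⟨fun h => by rw [h], fun h => by rw [← hcj (lab r), h, hcj]⟩
    have e2 : (cj (lab r) = t) ↔ (lab r = cj t) :=
      ⟨fun h => by rw [← h, hcj], fun h => by rw [h, hcj]⟩
    simp only [e1, e2] at h
    omega
  · have n1 : ∀ t, un t → lab r ≠ t := by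
      rintro t ht rfl; exact hu ht
    have n2 : ∀ t, un t → lab s0 ≠ t := by
      rintro t ht rfl
      rcases hcls s0 r ht hc.symm with h1 | h1
      · exact n1 _ ht h1
      · exact n1 _ (hun _ ht) h1
    rw [if_neg (n1 t ht), if_neg (n2 t ht), if_neg (n1 _ (hun t ht)), if_neg (n2 _ (hun t ht))] at h
    omega

omit [DecidableEq C] in
/-- multiplying by an allowed pair -/
lemma span_cons {T : Finset R} {g : (R → Fin 2) → ℂ} {r s0 : R}
    (hg : g ∈ Submodule.span ℂ {g | GMb cls lab cj un T g})
    (hr : r ∉ T) (hs : s0 ∉ T) (hne : r ≠ s0) (hc : cls r = cls s0)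
    (hl : un (lab r) → lab s0 = cj (lab r)) :
    (fun s => om (s r) (s s0) * g s) ∈
      Submodule.span ℂ {g | GMb cls lab cj un (insert r (insert s0 T)) g} := by
  refine Submodule.span_induction (p := fun g _ => (fun s => om (s r) (s s0) * g s) ∈
    Submodule.span ℂ {g | GMb cls lab cj un (insert r (insert s0 T)) g}) ?_ ?_ ?_ ?_ hg
  · intro g hg
    exact Submodule.subset_span (GMb.cons r s0 hg hr hs hne hc hl)
  · have h4 : (fun s : R → Fin 2 => om (s r) (s s0) * (0 : (R → Fin 2) → ℂ) s) = 0 := by
      funext s; simp
    rw [h4]; exact Submodule.zero_mem _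
  · intro g g' _ _ hg hg'
    have h4 : (fun s : R → Fin 2 => om (s r) (s s0) * (g + g') s) =
        (fun s => om (s r) (s s0) * g s) + (fun s => om (s r) (s s0) * g' s) := by
      funext s; simp only [Pi.add_apply]; ring
    rw [h4]; exact Submodule.add_mem _ hg hg'
  · intro a g _ hg
    have h4 : (fun s : R → Fin 2 => om (s r) (s s0) * (a • g) s) =
        a • (fun s => om (s r) (s s0) * g s) := by
      funext s; simp only [Pi.smul_apply, smul_eq_mul]; ring
    rw [h4]; exact Submodule.smul_mem _ _ hg

/-- a pair with both labels `t'`, if `t'` occurs more often than `t` -/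
lemma exists_pair (t t' : T0)
    (hcls : ∀ r r1, lab r = t' → cls r = cls r1 → lab r1 = t' ∨ lab r1 = t)
    {T : Finset R} {g : (R → Fin 2) → ℂ} (hg : GM cls T g) :
    (T.filter (fun r => lab r = t)).card < (T.filter (fun r => lab r = t')).card →
    ∃ (c d : R) (T1 : Finset R) (g1 : (R → Fin 2) → ℂ), GM cls T1 g1 ∧ c ∉ T1 ∧ d ∉ T1 ∧ c ≠ d ∧
      T = insert c (insert d T1) ∧ g = (fun s => om (s c) (s d) * g1 s) ∧ lab c = t' ∧
      lab d = t' := by
  induction hg with
  | nil => intro h; simp at h
  | cons r r' hT0 hr hr' hne hc ih =>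
    rename_i T g
    intro h
    by_cases hrr : lab r = t' ∧ lab r' = t'
    · exact ⟨r, r', T, g, hT0, hr, hr', hne, rfl, rfl, hrr.1, hrr.2⟩
    · rw [card_filter_insert2 hr hr' hne, card_filter_insert2 hr hr' hne] at h
      have h1 : (T.filter (fun r => lab r = t)).card < (T.filter (fun r => lab r = t')).card := by
        by_cases htt : t = t'
        · subst htt; omega
        by_cases h1 : lab r = t'
        · have h2 : lab r' ≠ t' := fun h2 => hrr ⟨h1, h2⟩
          have h3 : lab r' = t := (hcls r r' h1 hc).resolve_left h2
          rw [if_pos h1, if_neg h2, if_pos h3] at h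
          omega
        · by_cases h2 : lab r' = t'
          · have h3 : lab r = t := (hcls r' r h2 hc.symm).resolve_left h1
            rw [if_neg h1, if_pos h2, if_pos h3] at h
            omega
          · rw [if_neg h1, if_neg h2] at h
            omega
      obtain ⟨c, d, T1, g1, hG1, hc1, hd1, hcd, hT, hg, hlc, hld⟩ := ih h1
      have hcr : c ≠ r := by rintro rfl; exact hr (by rw [hT]; simp)
      have hcr' : c ≠ r' := by rintro rfl; exact hr' (by rw [hT]; simp)
      have hdr : d ≠ r := by rintro rfl; exact hr (by rw [hT]; simp)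
      have hdr' : d ≠ r' := by rintro rfl; exact hr' (by rw [hT]; simp)
      have hr1 : r ∉ T1 := fun h => hr (by rw [hT]; simp [h])
      have hr1' : r' ∉ T1 := fun h => hr' (by rw [hT]; simp [h])
      refine ⟨c, d, insert r (insert r' T1), fun s => om (s r) (s r') * g1 s,
        GM.cons r r' hG1 hr1 hr1' hne hc, ?_, ?_, hcd, ?_, ?_, hlc, hld⟩
      · simp [hcr, hcr', hc1]
      · simp [hdr, hdr', hd1]
      · rw [hT]
        ext x
        simp only [Finset.mem_insert]
        tauto
      · rw [hg]
        funext s
        ring

lemma om_plucker (a b c d : Fin 2) : om a b * om c d = om a c * om b d - om a d * om b c := by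
  fin_cases a <;> fin_cases b <;> fin_cases c <;> fin_cases d <;> simp [om]

/-- every matching is a combination of allowed ones -/
theorem gm_span (hcj : ∀ t, cj (cj t) = t) (hne : ∀ t, un t → cj t ≠ t)
    (hun : ∀ t, un t → un (cj t))
    (hcls : ∀ r r1, un (lab r) → cls r = cls r1 → lab r1 = lab r ∨ lab r1 = cj (lab r))
    (hcls2 : ∀ r r1, un (lab r) → (lab r1 = lab r ∨ lab r1 = cj (lab r)) → cls r = cls r1) :
    ∀ (N : ℕ) (T : Finset R), T.card = N → Bal lab cj un T → ∀ g, GM cls T g →
      g ∈ Submodule.span ℂ {g | GMb cls lab cj un T g} := by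
  intro N
  induction N using Nat.strong_induction_on with
  | _ N ih =>
    intro T hTN hb g hg
    cases hg with
    | nil => exact Submodule.subset_span GMb.nil
    | cons r r' hT0 hr hr' hrr hc =>
      rename_i T0' g0
      have hrN : r ∉ insert r' T0' := by
        rw [Finset.mem_insert]; rintro (h | h)
        · exact hrr h
        · exact hr h
      have hcardN : T0'.card + 2 = N := by
        rw [← hTN, Finset.card_insert_of_notMem hrN, Finset.card_insert_of_notMem hr']
      by_cases hal : un (lab r) → lab r' = cj (lab r)
      · have hb0 := bal_remove hcj hun hcls hr hr' hrr hc hal hb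
        exact span_cons (ih T0'.card (by omega) T0' rfl hb0 g0 hT0) hr hr' hrr hc hal
      · rw [Classical.not_imp] at hal
        obtain ⟨hu, hnl⟩ := hal
        have hl : lab r' = lab r := (hcls r r' hu hc).resolve_right hnl
        have hlt : (T0'.filter (fun x => lab x = lab r)).card <
            (T0'.filter (fun x => lab x = cj (lab r))).card := by
          have h := hb (lab r) hu
          rw [card_filter_insert2 hr hr' hrr, card_filter_insert2 hr hr' hrr, if_pos rfl,
            if_pos hl, if_neg (Ne.symm (hne _ hu)), if_neg (by rw [hl]; exact Ne.symm (hne _ hu))]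
            at h
          omega
        obtain ⟨c, d, T1, g1, hG1, hc1, hd1, hcd, hT, hg, hlc, hld⟩ :=
          exists_pair (cls := cls) (lab r) (cj (lab r)) (by
            intro x x1 hx hxx
            rcases hcls x x1 (by rw [hx]; exact hun _ hu) hxx with h | h
            · left; rw [h, hx]
            · right; rw [h, hx, hcj]) hT0 hlt
        have hcr : c ≠ r := by rintro rfl; exact hr (by rw [hT]; simp)
        have hcr' : c ≠ r' := by rintro rfl; exact hr' (by rw [hT]; simp)
        have hdr : d ≠ r := by rintro rfl; exact hr (by rw [hT]; simp)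
        have hdr' : d ≠ r' := by rintro rfl; exact hr' (by rw [hT]; simp)
        have hr1 : r ∉ T1 := fun h => hr (by rw [hT]; simp [h])
        have hr1' : r' ∉ T1 := fun h => hr' (by rw [hT]; simp [h])
        have k1 : cls r = cls c := hcls2 r c hu (Or.inr hlc)
        have k2 : cls r = cls d := hcls2 r d hu (Or.inr hld)
        have hcardT1 : T1.card + 2 = T0'.card := by
          rw [hT, Finset.card_insert_of_notMem (by
            rw [Finset.mem_insert]; rintro (h | h)
            · exact hcd h
            · exact hc1 h), Finset.card_insert_of_notMem hd1]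
        -- the two terms
        have key : ∀ x y : R, x ≠ y → x ∉ T1 → y ∉ T1 → x ≠ r → x ≠ r' → y ≠ r → y ≠ r' →
            cls r = cls x → cls r = cls y → lab x = cj (lab r) →
            insert x (insert y T1) = T0' →
            (fun s => om (s r) (s x) * (om (s r') (s y) * g1 s)) ∈
              Submodule.span ℂ {g | GMb cls lab cj un (insert r (insert r' T0')) g} := by
          intro x y hxy hx1 hy1 hxr hxr' hyr hyr' cx cy lx hxT
          have hset : insert r (insert r' T0') = insert r (insert x (insert r' (insert y T1))) := by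
            rw [← hxT]
            ext z
            simp only [Finset.mem_insert]
            tauto
          have hrn : r ∉ insert r' (insert y T1) := by
            simp [hrr, Ne.symm hyr, hr1]
          have hxn : x ∉ insert r' (insert y T1) := by
            simp [hxr', hxy, hx1]
          rw [hset] at hb ⊢
          have hb1 := bal_remove hcj hun hcls hrn hxn (Ne.symm hxr) cx (fun _ => lx) hb
          have hG := GM.cons (cls := cls) r' y hG1 hr1' hy1 (Ne.symm hyr') (hc.symm.trans cy)
          have hcard : (insert r' (insert y T1)).card < N := by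
            rw [Finset.card_insert_of_notMem (by simp [Ne.symm hyr', hr1']),
              Finset.card_insert_of_notMem hy1]
            omega
          exact span_cons (ih _ hcard _ rfl hb1 _ hG) hrn hxn (Ne.symm hxr) cx (fun _ => lx)
        have e1 := key c d hcd hc1 hd1 hcr hcr' hdr hdr' k1 k2 hlc hT.symm
        have e2 := key d c (Ne.symm hcd) hd1 hc1 hdr hdr' hcr hcr' k2 k1 hld (by
          rw [hT]; ext z; simp only [Finset.mem_insert]; tauto)
        have e3 : (fun s : R → Fin 2 => om (s r) (s r') * g0 s) =
            (fun s => om (s r) (s c) * (om (s r') (s d) * g1 s)) -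
            (fun s => om (s r) (s d) * (om (s r') (s c) * g1 s)) := by
          rw [hg]
          funext s
          simp only [Pi.sub_apply]
          linear_combination g1 s * om_plucker (s r) (s r') (s c) (s d)
        rw [e3]
        exact Submodule.sub_mem _ e1 e2

variable (cls lab cj un) in
/-- **First fundamental theorem** with conjugate pairs for unitary labels. -/
theorem bip_fft (hcj : ∀ t, cj (cj t) = t) (hne : ∀ t, un t → cj t ≠ t)
    (hun : ∀ t, un t → un (cj t))
    (hcls : ∀ r r1, un (lab r) → cls r = cls r1 → lab r1 = lab r ∨ lab r1 = cj (lab r))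
    (hcls2 : ∀ r r1, un (lab r) → (lab r1 = lab r ∨ lab r1 = cj (lab r)) → cls r = cls r1)
    (T : Finset R)
    (hbal : ∀ t, un t → (T.filter (fun r => lab r = t)).card =
      (T.filter (fun r => lab r = cj t)).card)
    (f : (R → Fin 2) → ℂ) (hf : SInv cls T f) :
    f ∈ Submodule.span ℂ {g | GMb cls lab cj un T g} := by
  have h1 := gl_fft cls _ T rfl f hf
  refine Submodule.span_le.mpr ?_ h1
  intro g hg
  exact gm_span hcj hne hun hcls hcls2 _ T rfl hbal g hg

end Pool.Agent.Helper7
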