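import Pool.Agent.Helper28.NijDefs

/-!
# The Bell family is admissible
-/

open MvPolynomial

namespace Pool.Agent.Helper28.Nij

/-- The generating polynomial `x_1 u + ... + x_n u^n`. -/
noncomputable def gen (n : ℕ) : Polynomial (MvPolynomial (Fin n) ℝ) :=
  ∑ i : Fin n, Polynomial.C (X i) * Polynomial.X ^ ((i : ℕ) + 1)

/-- The coefficients `c_1 = 1` and `c_k = c (a - 2b)(a - 3b) ... (a - (k-1)b) / k!` for `k ≥ 2`;
here `k = i + 1`. -/
noncomputable def cf (a b c : ℝ) : ℕ → ℝ
  | 0 => 1
  | i + 1 => c * (∏ j ∈ Finset.range i, (a - ((j : ℝ) + 2) * b)) / ((i + 2).factorial : ℝ)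

/-- The Bell family: `σ_k = c_k [u^n] (x_1 u + ... + x_n u^n)^k` for `k = i + 1`. -/
noncomputable def bell (n : ℕ) (a b c : ℝ) (i : Fin n) : MvPolynomial (Fin n) ℝ :=
  C (cf a b c i) * ((gen n) ^ ((i : ℕ) + 1)).coeff n

variable {n : ℕ}

theorem gen_coeff_succ (i : Fin n) : (gen n).coeff ((i : ℕ) + 1) = X i := by
  simp only [gen, Polynomial.finsetSum_coeff, Polynomial.coeff_C_mul_X_pow]
  rw [Finset.sum_eq_single i]
  · simp
  · intro j _ hj
    rw [if_neg]
    intro h
    exact hj (Fin.ext (by omega))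
  · simp

theorem gen_coeff_zero : (gen n).coeff 0 = 0 := by
  simp only [gen, Polynomial.finsetSum_coeff, Polynomial.coeff_C_mul_X_pow]
  refine Finset.sum_eq_zero fun j _ => ?_
  rw [if_neg]
  omega

theorem gen_coeff_big (N : ℕ) (h : n < N) : (gen n).coeff N = 0 := by
  simp only [gen, Polynomial.finsetSum_coeff, Polynomial.coeff_C_mul_X_pow]
  refine Finset.sum_eq_zero fun j _ => ?_
  rw [if_neg]
  omega

theorem gen_coeff_homog (N : ℕ) : ((gen n).coeff N).IsHomogeneous 1 := by
  rcases Nat.eq_zero_or_pos N with rfl | h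
  · rw [gen_coeff_zero]; exact isHomogeneous_zero _ _ _
  · rcases Nat.lt_or_ge n N with h2 | h2
    · rw [gen_coeff_big N h2]; exact isHomogeneous_zero _ _ _
    · obtain ⟨M, rfl⟩ := Nat.exists_eq_add_of_le' h
      rw [gen_coeff_succ ⟨M, by omega⟩]
      exact isHomogeneous_X _ _

/-- Coefficients of the powers of the generating polynomial. -/
noncomputable def B (n k N : ℕ) : MvPolynomial (Fin n) ℝ := ((gen n) ^ k).coeff N

theorem B_succ (k N : ℕ) :
    B n (k + 1) N = ∑ p ∈ Finset.HasAntidiagonal.antidiagonal N, (gen n).coeff p.1 * B n k p.2 := by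
  rw [B, pow_succ', Polynomial.coeff_mul]
  rfl

theorem B_deriv (k N : ℕ) :
    (N : MvPolynomial (Fin n) ℝ) * B n (k + 1) N =
      ((k : MvPolynomial (Fin n) ℝ) + 1) *
        ∑ p ∈ Finset.HasAntidiagonal.antidiagonal N, (p.1 : MvPolynomial (Fin n) ℝ) * (gen n).coeff p.1 *
          B n k p.2 := by
  have key : ∀ (p : Polynomial (MvPolynomial (Fin n) ℝ)) (M : ℕ),
      (Polynomial.X * Polynomial.derivative p).coeff M =
        (M : MvPolynomial (Fin n) ℝ) * p.coeff M := by
    intro p M
    cases M with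
    | zero => simp
    | succ M =>
      rw [Polynomial.coeff_X_mul, Polynomial.coeff_derivative]
      push_cast
      ring
  have h1 : Polynomial.X * Polynomial.derivative ((gen n) ^ (k + 1)) =
      Polynomial.C ((k : MvPolynomial (Fin n) ℝ) + 1) *
        ((Polynomial.X * Polynomial.derivative (gen n)) * (gen n) ^ k) := by
    rw [Polynomial.derivative_pow_succ]
    simp only [map_add, map_one, map_natCast]
    ring
  have h2 := congrArg (fun p => Polynomial.coeff p N) h1
  simp only [key, Polynomial.coeff_C_mul, Polynomial.coeff_mul _ ((gen n) ^ k)] at h2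
  exact h2

theorem X_dvd_gen : Polynomial.X ∣ gen n := by
  rw [Polynomial.X_dvd_iff]
  exact gen_coeff_zero

theorem B_eq_zero (k N : ℕ) (h : N < k) : B n k N = 0 := by
  have h1 : (Polynomial.X : Polynomial (MvPolynomial (Fin n) ℝ)) ^ k ∣ (gen n) ^ k :=
    pow_dvd_pow_of_dvd X_dvd_gen k
  rw [Polynomial.X_pow_dvd_iff] at h1
  exact h1 N h

theorem B_self (k : ℕ) : B n k k = ((gen n).coeff 1) ^ k := by
  obtain ⟨g, hg⟩ := X_dvd_gen (n := n)
  have h1 : (gen n).coeff 1 = g.coeff 0 := by
    rw [hg, Polynomial.coeff_X_mul]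
  have h2 : B n k k = (g ^ k).coeff (0 : ℕ) := by
    rw [B, hg, mul_pow]
    have := Polynomial.coeff_X_pow_mul (g ^ k) k 0
    rw [zero_add] at this
    exact this
  rw [h2, h1, Polynomial.coeff_zero_eq_eval_zero, Polynomial.coeff_zero_eq_eval_zero,
    Polynomial.eval_pow]

theorem B_homog (k : ℕ) : ∀ N, (B n k N).IsHomogeneous k := by
  induction k with
  | zero =>
    intro N
    rw [B, pow_zero, Polynomial.coeff_one]
    split_ifs
    · exact isHomogeneous_one _ _
    · exact isHomogeneous_zero _ _ _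
  | succ k ih =>
    intro N
    rw [B_succ]
    refine IsHomogeneous.sum _ _ _ fun p _ => ?_
    rw [add_comm k 1]
    exact (gen_coeff_homog p.1).mul (ih p.2)

/-- The coefficientwise derivation. -/
noncomputable def DD (m : Fin n) : Derivation ℝ (Polynomial (MvPolynomial (Fin n) ℝ))
    (Polynomial (MvPolynomial (Fin n) ℝ)) :=
  PolynomialModule.equivPolynomialSelf.compDer (pderiv m).mapCoeffs

theorem coeff_DD (m : Fin n) (p : Polynomial (MvPolynomial (Fin n) ℝ)) (N : ℕ) :
    (DD m p).coeff N = pderiv m (p.coeff N) := rfl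

theorem DD_gen (m : Fin n) : DD m (gen n) = Polynomial.X ^ ((m : ℕ) + 1) := by
  ext1 N
  rw [coeff_DD, Polynomial.coeff_X_pow]
  rcases Nat.eq_zero_or_pos N with rfl | h
  · rw [gen_coeff_zero, map_zero, if_neg (by omega)]
  · rcases Nat.lt_or_ge n N with h2 | h2
    · rw [gen_coeff_big N h2, map_zero, if_neg (by omega)]
    · obtain ⟨M, rfl⟩ := Nat.exists_eq_add_of_le' h
      rw [gen_coeff_succ ⟨M, by omega⟩, pderiv_X, Pi.single_apply]
      by_cases h3 : M = m
      · subst h3
        rw [if_pos rfl, if_pos rfl]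
      · rw [if_neg (fun h4 => h3 (congrArg Fin.val h4)), if_neg (fun h4 => h3 (by omega))]

theorem pderiv_B (m : Fin n) (k N : ℕ) (h : (m : ℕ) + 1 ≤ N) :
    pderiv m (B n (k + 1) N) = ((k : MvPolynomial (Fin n) ℝ) + 1) * B n k (N - (m + 1)) := by
  rw [B, ← coeff_DD, Derivation.leibniz_pow, DD_gen, Nat.add_sub_cancel, smul_eq_mul,
    Polynomial.coeff_smul, Polynomial.coeff_mul_X_pow', if_pos h, nsmul_eq_mul]
  push_cast
  rfl

theorem pderiv_bell (a b c : ℝ) (m i : Fin n) :
    pderiv m (bell n a b c i) = C (cf a b c i * ((i : ℝ) + 1)) * B n i (n - 1 - m) := by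
  have h1 := pderiv_B m (i : ℕ) n m.2
  rw [B] at h1
  rw [bell, pderiv_C_mul, h1, map_mul, mul_assoc]
  congr 2
  · simp
  · congr 1
    omega

theorem cf_one (a b c : ℝ) : cf a b c 1 * 2 = c := by
  simp [cf]

theorem cf_succ (a b c : ℝ) (i : ℕ) :
    cf a b c (i + 2) * ((i : ℝ) + 3) = cf a b c (i + 1) * (a - ((i : ℝ) + 2) * b) := by
  rw [cf, cf, Finset.prod_range_succ, Nat.factorial_succ (i + 2)]
  generalize (∏ j ∈ Finset.range i, (a - ((j : ℝ) + 2) * b)) = P
  have : (((i + 2).factorial : ℕ) : ℝ) ≠ 0 := by positivity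
  push_cast
  have h2 : ((i : ℝ) + 2 + 1) ≠ 0 := by positivity
  field_simp
  ring

theorem cf_ne_zero (a b c : ℝ) (hc : c ≠ 0) (h : ∀ i : ℕ, 2 ≤ i → i < n → a ≠ i * b) (i : ℕ)
    (hi : i < n) : cf a b c i ≠ 0 := by
  cases i with
  | zero => exact one_ne_zero
  | succ i =>
    refine div_ne_zero (mul_ne_zero hc (Finset.prod_ne_zero_iff.2 fun j hj => ?_))
      (by positivity)
    rw [Finset.mem_range] at hj
    have := h (j + 2) (by omega) (by omega)
    intro h
    apply this
    push_cast
    linarith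

/-- The operator `L`. -/
noncomputable def Lm (n : ℕ) (a b c : ℝ) : Matrix (Fin n) (Fin n) (MvPolynomial (Fin n) ℝ) :=
  Matrix.of fun m l => if (l : ℕ) + 1 = n then C (-(((m : ℝ) + 1) / n)) * X m
    else if (m : ℕ) + 1 = n then C c * (gen n).coeff ((m : ℕ) - l)
    else C (a * (((m : ℝ) - l) / ((n : ℝ) - 1 - l)) - b) * (gen n).coeff ((m : ℕ) - l)

theorem comp_mul_jac (a b c : ℝ) (k l : Fin n) :
    (comp (bell n a b c) * jac (bell n a b c)) k l =
      (if (l : ℕ) + 1 = n then -bell n a b c k else 0) +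
        C (cf a b c (k + 1) * ((k : ℝ) + 2)) * B n (k + 1) (n - 1 - l) := by
  have hn : 0 < n := l.pos
  simp only [comp, jac, Matrix.mul_apply, Matrix.of_apply, add_mul, Finset.sum_add_distrib,
    ite_mul, zero_mul, one_mul]
  congr 1
  · rw [Finset.sum_eq_single (⟨0, hn⟩ : Fin n)]
    · rw [if_pos rfl, pderiv_bell]
      have h1 : cf a b c ((⟨0, hn⟩ : Fin n) : ℕ) * ((((⟨0, hn⟩ : Fin n) : ℕ) : ℝ) + 1) = 1 := by
        simp [cf]
      rw [h1, map_one, one_mul, B, pow_zero, Polynomial.coeff_one]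
      by_cases h : (l : ℕ) + 1 = n
      · rw [if_pos (by omega), if_pos h, mul_one]
      · rw [if_neg (by omega), if_neg h, mul_zero]
    · intro j _ hj
      rw [if_neg]
      intro h
      exact hj (Fin.ext h)
    · simp
  · by_cases h : (k : ℕ) + 1 < n
    · rw [Finset.sum_eq_single (⟨k + 1, h⟩ : Fin n)]
      · rw [if_pos rfl, pderiv_bell]
        congr 3
        push_cast
        ring
      · intro j _ hj
        rw [if_neg]
        intro h
        exact hj (Fin.ext h)
      · simp
    · rw [Finset.sum_eq_zero, B_eq_zero _ _ (by omega), mul_zero]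
      intro j _
      rw [if_neg]
      omega

theorem jac_mul_Lm (a b c : ℝ) (k l : Fin n) :
    (jac (bell n a b c) * Lm n a b c) k l =
      (if (l : ℕ) + 1 = n then -bell n a b c k else 0) +
        C (cf a b c (k + 1) * ((k : ℝ) + 2)) * B n (k + 1) (n - 1 - l) := by
  have hn : 0 < n := l.pos
  have hn' : (n : ℝ) ≠ 0 := by positivity
  have hk : ((k : ℝ) + 1) ≠ 0 := by positivity
  simp only [jac, Lm, Matrix.mul_apply, Matrix.of_apply, pderiv_bell]
  by_cases h : (l : ℕ) + 1 = n
  · simp only [if_pos h]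
    rw [B_eq_zero (k + 1) (n - 1 - l) (by omega), mul_zero, add_zero]
    have h1 := B_deriv (n := n) k n
    rw [Finset.Nat.sum_antidiagonal_eq_sum_range_succ_mk, Finset.sum_range_succ'] at h1
    simp only [Nat.cast_zero, zero_mul, add_zero] at h1
    rw [Finset.sum_range (fun i => ((i + 1 : ℕ) : MvPolynomial (Fin n) ℝ) *
      (gen n).coeff (i + 1) * B n k (n - (i + 1)))] at h1
    have h2 : ∀ m : Fin n, C (cf a b c k * ((k : ℝ) + 1)) * B n k (n - 1 - m) *
        (C (-(((m : ℝ) + 1) / n)) * X m) = C (-(cf a b c k * ((k : ℝ) + 1) / n)) *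
          (((m + 1 : ℕ) : MvPolynomial (Fin n) ℝ) * (gen n).coeff (m + 1) *
            B n k (n - (m + 1))) := by
      intro m
      rw [gen_coeff_succ, show n - 1 - (m : ℕ) = n - (m + 1) by omega]
      have h3 : (((m + 1 : ℕ) : MvPolynomial (Fin n) ℝ)) = C ((m : ℝ) + 1) := by
        rw [← map_natCast (C : ℝ →+* MvPolynomial (Fin n) ℝ)]
        push_cast
        rfl
      rw [h3]
      have h4 : (C (cf a b c k * ((k : ℝ) + 1)) * C (-(((m : ℝ) + 1) / n)) :
          MvPolynomial (Fin n) ℝ) = C (-(cf a b c k * ((k : ℝ) + 1) / n)) * C ((m : ℝ) + 1) := by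
        rw [← map_mul, ← map_mul]
        congr 1
        ring
      linear_combination (X m * B n k (n - (m + 1))) * h4
    rw [Finset.sum_congr rfl fun m _ => h2 m, ← Finset.mul_sum]
    have h5 : (C (-(cf a b c k * ((k : ℝ) + 1) / n)) : MvPolynomial (Fin n) ℝ) =
        C (-(cf a b c k / n)) * ((k : MvPolynomial (Fin n) ℝ) + 1) := by
      have h3 : ((k : ℕ) : MvPolynomial (Fin n) ℝ) + 1 = C ((k : ℝ) + 1) := by
        rw [map_add, map_one, map_natCast]
      rw [h3, ← map_mul]
      congr 1
      ring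
    rw [h5, mul_assoc, ← h1, bell, B, ← mul_assoc, ← neg_mul]
    congr 1
    have h3 : ((n : ℕ) : MvPolynomial (Fin n) ℝ) = C (n : ℝ) := by rw [map_natCast]
    rw [h3, ← map_mul, ← map_neg]
    congr 1
    field_simp
  · simp only [if_neg h, zero_add]
    have ha : (l : ℕ) + 1 < n := by omega
    rcases Nat.eq_zero_or_pos (k : ℕ) with hk0 | hk0
    · -- the first row
      rw [hk0]
      rw [Finset.sum_eq_single (⟨n - 1, by omega⟩ : Fin n)]
      · rw [if_pos (by simp only; omega), B, pow_zero, Polynomial.coeff_one,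
          if_pos (by simp only; omega), B, zero_add, pow_one, Nat.cast_zero, zero_add, zero_add,
          cf_one]
        simp [cf]
      · intro m _ hm
        rw [B, pow_zero, Polynomial.coeff_one, if_neg, mul_zero, zero_mul]
        intro h
        exact hm (Fin.ext (by simp only; omega))
      · simp
    obtain ⟨N, hN⟩ : ∃ N, n = l + (N + 1) := ⟨n - 1 - l, by omega⟩
    have hN0 : N ≠ 0 := by omega
    have hNr : (N : ℝ) ≠ 0 := by exact_mod_cast hN0
    have hNN : n - 1 - (l : ℕ) = N := by omega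
    have hNc : (n : ℝ) - 1 - l = N := by
      have : (n : ℝ) = l + (N + 1) := by exact_mod_cast hN
      rw [this]; ring
    rw [hNN]
    simp only [hNc]
    have hm : ∀ m : Fin n, C (cf a b c k * ((k : ℝ) + 1)) * B n k (n - 1 - m) *
        (if (m : ℕ) + 1 = n then C c * (gen n).coeff ((m : ℕ) - l)
          else C (a * (((m : ℝ) - l) / N) - b) * (gen n).coeff ((m : ℕ) - l)) =
        C (cf a b c k * ((k : ℝ) + 1)) * B n k (n - 1 - m) *
          (C (a * (((m : ℝ) - l) / N) - b) * (gen n).coeff ((m : ℕ) - l)) := by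
      intro m
      split_ifs with h
      · rw [B_eq_zero k _ (by omega), mul_zero, zero_mul, zero_mul]
      · rfl
    rw [Finset.sum_congr rfl fun m _ => hm m]
    rw [← Finset.sum_range (fun m => C (cf a b c k * ((k : ℝ) + 1)) * B n k (n - 1 - m) *
      (C (a * (((m : ℝ) - l) / N) - b) * (gen n).coeff (m - l)))]
    have hs : Finset.range n = Finset.range (l + (N + 1)) := by rw [← hN]
    rw [hs, Finset.sum_range_add, Finset.sum_eq_zero, zero_add]
    · have h1 := B_deriv (n := n) k N
      rw [Finset.Nat.sum_antidiagonal_eq_sum_range_succ_mk] at h1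
      have h2 := B_succ (n := n) k N
      rw [Finset.Nat.sum_antidiagonal_eq_sum_range_succ_mk] at h2
      have h3 : ∀ i ∈ Finset.range (N + 1), C (cf a b c k * ((k : ℝ) + 1)) *
          B n k (n - 1 - (l + i)) * (C (a * ((((l + i : ℕ) : ℝ) - l) / N) - b) *
            (gen n).coeff (l + i - l)) =
          C (a * (cf a b c k * ((k : ℝ) + 1) / N)) *
            ((i : MvPolynomial (Fin n) ℝ) * (gen n).coeff i * B n k (N - i)) -
          C (cf a b c k * ((k : ℝ) + 1) * b) * ((gen n).coeff i * B n k (N - i)) := by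
        intro i hi
        rw [show n - 1 - ((l : ℕ) + i) = N - i by omega, show (l : ℕ) + i - l = i by omega]
        have h4 : a * ((((l + i : ℕ) : ℝ) - l) / N) - b = a * ((i : ℝ) / N) - b := by
          push_cast
          ring
        rw [h4]
        have h5 : (i : MvPolynomial (Fin n) ℝ) = C (i : ℝ) := by rw [map_natCast]
        rw [h5]
        have h6 : (C (cf a b c k * ((k : ℝ) + 1)) * C (a * ((i : ℝ) / N) - b) :
            MvPolynomial (Fin n) ℝ) =
            C (a * (cf a b c k * ((k : ℝ) + 1) / N)) * C (i : ℝ) -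
              C (cf a b c k * ((k : ℝ) + 1) * b) := by
          rw [← map_mul, ← map_mul, ← map_sub]
          congr 1
          ring
        linear_combination ((gen n).coeff i * B n k (N - i)) * h6
      rw [Finset.sum_congr rfl h3, Finset.sum_sub_distrib, ← Finset.mul_sum, ← Finset.mul_sum]
      dsimp only at h1 h2
      rw [← h2]
      have h7 : (C (a * (cf a b c k * ((k : ℝ) + 1) / N)) : MvPolynomial (Fin n) ℝ) =
          C (a * (cf a b c k / N)) * ((k : MvPolynomial (Fin n) ℝ) + 1) := by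
        have h3 : ((k : ℕ) : MvPolynomial (Fin n) ℝ) + 1 = C ((k : ℝ) + 1) := by
          rw [map_add, map_one, map_natCast]
        rw [h3, ← map_mul]
        congr 1
        ring
      rw [h7, mul_assoc, ← h1]
      have h8 : (C (a * (cf a b c k / N)) * (N : MvPolynomial (Fin n) ℝ)) =
          C (a * cf a b c k) := by
        have h3 : ((N : ℕ) : MvPolynomial (Fin n) ℝ) = C (N : ℝ) := by rw [map_natCast]
        rw [h3, ← map_mul]
        congr 1
        field_simp
      rw [← mul_assoc, h8, ← sub_mul, ← map_sub]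
      congr 2
      obtain ⟨i, hi⟩ := Nat.exists_eq_add_of_le' hk0
      rw [hi]
      have h9 := cf_succ a b c i
      push_cast
      linear_combination -h9
    · intro m hm
      rw [Finset.mem_range] at hm
      rw [show m - (l : ℕ) = 0 by omega, gen_coeff_zero, mul_zero, mul_zero]

theorem det_ne_zero (a b c : ℝ) (hc : c ≠ 0) (h : ∀ i : ℕ, 2 ≤ i → i < n → a ≠ i * b) :
    (jac (bell n a b c)).det ≠ 0 := by
  intro h0
  have h1 : ((jac (bell n a b c)).submatrix id Fin.revPerm).det = 0 := by
    rw [Matrix.det_permute', h0, mul_zero]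
  rw [Matrix.det_of_isUpperTriangular] at h1
  · rw [Finset.prod_eq_zero_iff] at h1
    obtain ⟨i, _, hi⟩ := h1
    have hn : 0 < n := i.pos
    simp only [jac, Matrix.submatrix_apply, Matrix.of_apply, id, Fin.revPerm_apply, pderiv_bell,
      Fin.val_rev] at hi
    rw [show n - 1 - (n - ((i : ℕ) + 1)) = i by omega, B_self] at hi
    have h2 := gen_coeff_succ (⟨0, hn⟩ : Fin n)
    simp only [zero_add] at h2
    rw [h2] at hi
    rcases mul_eq_zero.1 hi with h3 | h3
    · rw [← map_zero (C : ℝ →+* MvPolynomial (Fin n) ℝ)] at h3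
      have h4 := C_injective (Fin n) ℝ h3
      have h5 : ((i : ℝ) + 1) ≠ 0 := by positivity
      exact (mul_ne_zero (cf_ne_zero a b c hc h i i.2) h5) h4
    · exact pow_ne_zero _ (X_ne_zero _) h3
  · intro i j hij
    simp only [id] at hij
    simp only [jac, Matrix.submatrix_apply, Matrix.of_apply, id, Fin.revPerm_apply, pderiv_bell,
      Fin.val_rev]
    rw [B_eq_zero, mul_zero]
    have : (j : ℕ) < i := hij
    omega

theorem bell_admissible (a b c : ℝ) (hc : c ≠ 0) (h : ∀ i : ℕ, 2 ≤ i → i < n → a ≠ i * b) :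
    Admissible (bell n a b c) where
  indep := indep_of_det _ (det_ne_zero a b c hc h)
  homog i := by
    have h1 := (isHomogeneous_C (Fin n) (cf a b c i)).mul (B_homog (n := n) (i + 1) n)
    rw [zero_add] at h1
    exact h1
  dvd i j := by
    have h1 : comp (bell n a b c) * jac (bell n a b c) =
        jac (bell n a b c) * Lm n a b c := by
      ext1 k a
      rw [comp_mul_jac, jac_mul_Lm]
    rw [Matrix.mul_assoc, h1, ← Matrix.mul_assoc, Matrix.adjugate_mul, Matrix.smul_mul,
      Matrix.one_mul, Matrix.smul_apply, smul_eq_mul]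
    exact dvd_mul_right _ _

end Pool.Agent.Helper28.Nij
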