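import Mathlib

/-!
# Admissible collections of polynomials (linear Nijenhuis operators)
-/

open MvPolynomial

namespace Pool.Agent.Helper28.Nij

variable {n : ℕ}

/-- The Jacobian matrix: row `i` is the gradient of `σ i`. -/
noncomputable def jac (σ : Fin n → MvPolynomial (Fin n) ℝ) :
    Matrix (Fin n) (Fin n) (MvPolynomial (Fin n) ℝ) :=
  Matrix.of fun i j => pderiv j (σ i)

/-- The matrix `C`: the first column is `(-σ_1, ..., -σ_n)`, the entries right of the diagonal are
`1`, all other entries vanish. -/
noncomputable def comp (σ : Fin n → MvPolynomial (Fin n) ℝ) :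
    Matrix (Fin n) (Fin n) (MvPolynomial (Fin n) ℝ) :=
  Matrix.of fun i j => (if (j : ℕ) = 0 then -σ i else 0) + (if (j : ℕ) = i + 1 then 1 else 0)

/-- Admissible collections: `σ i` (which is `σ_(i+1)` in the usual numbering) is homogeneous of
degree `i + 1`, the `σ i` are algebraically independent, and `D = det J` divides every entry
`Q_ij` of the matrix `adj(J) C J`, that is every entry of `L = J⁻¹ C J = adj(J) C J / D` is a
polynomial. -/
structure Admissible (σ : Fin n → MvPolynomial (Fin n) ℝ) : Prop where
  indep : AlgebraicIndependent ℝ σ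
  homog : ∀ i, (σ i).IsHomogeneous (i + 1)
  dvd : ∀ i j, (jac σ).det ∣ ((jac σ).adjugate * comp σ * jac σ) i j

/-- Two collections are linearly equivalent: they differ by an invertible linear change of the
variables. -/
def LinEquiv {n : ℕ} (σ τ : Fin n → MvPolynomial (Fin n) ℝ) : Prop :=
  ∃ A : Matrix (Fin n) (Fin n) ℝ, IsUnit A.det ∧
    ∀ i, aeval (fun j => ∑ l, C (A j l) * X l) (σ i) = τ i

/-- Chain rule. -/
theorem pderiv_aeval (σ : Fin n → MvPolynomial (Fin n) ℝ) (F : MvPolynomial (Fin n) ℝ)
    (m : Fin n) :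
    pderiv m (aeval σ F) = ∑ k, aeval σ (pderiv k F) * pderiv m (σ k) := by
  classical
  induction F using MvPolynomial.induction_on with
  | C a => simp
  | add p q hp hq =>
    simp only [map_add, hp, hq, add_mul, Finset.sum_add_distrib]
  | mul_X p i h =>
    have h2 : ∀ k, aeval σ (pderiv k (p * X i)) =
        aeval σ (pderiv k p) * σ i + (if k = i then aeval σ p else 0) := by
      intro k
      rw [pderiv_mul, map_add, map_mul, aeval_X, pderiv_X, Pi.single_apply]
      congr 1
      by_cases hk : i = k
      · subst hk; simp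
      · rw [if_neg hk, if_neg (fun h => hk h.symm)]; simp
    simp only [h2, add_mul, Finset.sum_add_distrib, ite_mul, zero_mul, Finset.sum_ite_eq',
      Finset.mem_univ, if_true]
    rw [map_mul, aeval_X, pderiv_mul, h, Finset.sum_mul]
    congr 1
    exact Finset.sum_congr rfl fun k _ => by ring

theorem eq_C_of_pderiv (F : MvPolynomial (Fin n) ℝ) (h : ∀ k, pderiv k F = 0) :
    F = C (coeff 0 F) := by
  classical
  ext m
  rw [coeff_C]
  split_ifs with h0
  · rw [h0]
  · obtain ⟨k, hk⟩ : ∃ k, m k ≠ 0 := by
      by_contra hc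
      push Not at hc
      exact h0 (by ext k; simp [hc k])
    have hm : m = (m - Finsupp.single k 1) + Finsupp.single k 1 := by
      rw [tsub_add_cancel_of_le]
      intro i
      by_cases hi : k = i
      · subst hi
        simp only [Finsupp.single_eq_same]
        omega
      · simp [hi]
    have h1 := coeff_pderiv (i := k) F (m - Finsupp.single k 1)
    rw [h k, ← hm, coeff_zero] at h1
    have h2 : (((m - Finsupp.single k 1 : Fin n →₀ ℕ) k : ℕ) : ℝ) + 1 ≠ 0 := by positivity
    rcases mul_eq_zero.1 h1.symm with h3 | h3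
    · exact h3
    · exact absurd h3 h2

theorem totalDegree_pderiv (F : MvPolynomial (Fin n) ℝ) (k : Fin n) (d : ℕ)
    (h : F.totalDegree ≤ d + 1) : (pderiv k F).totalDegree ≤ d := by
  refine Finset.sup_le fun s hs => ?_
  rw [mem_support_iff, coeff_pderiv] at hs
  have h1 : s + Finsupp.single k 1 ∈ F.support := mem_support_iff.2 (left_ne_zero_of_mul hs)
  have h2 := le_totalDegree h1
  have h3 : ((s + Finsupp.single k 1).sum fun _ e => e) = (s.sum fun _ e => e) + 1 := by
    rw [Finsupp.sum_add_index' (fun _ => rfl) (fun _ _ _ => rfl), Finsupp.sum_single_index rfl]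
  omega

theorem indep_of_det (σ : Fin n → MvPolynomial (Fin n) ℝ) (h : (jac σ).det ≠ 0) :
    AlgebraicIndependent ℝ σ := by
  rw [algebraicIndependent_iff]
  suffices H : ∀ d (F : MvPolynomial (Fin n) ℝ), F.totalDegree ≤ d → aeval σ F = 0 → F = 0 from
    fun F hF => H _ F le_rfl hF
  have H0 : ∀ F : MvPolynomial (Fin n) ℝ, aeval σ F = 0 → F = C (coeff 0 F) → F = 0 := by
    intro F hF hC
    rw [hC, aeval_C] at hF
    have : coeff 0 F = 0 := by
      have h1 : (C (coeff 0 F) : MvPolynomial (Fin n) ℝ) = C 0 := by
        rw [map_zero]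
        exact hF
      exact (C_injective (Fin n) ℝ) h1
    rw [hC, this, map_zero]
  intro d
  induction d with
  | zero =>
    intro F hd hF
    exact H0 F hF (totalDegree_eq_zero_iff_eq_C.1 (Nat.le_zero.1 hd))
  | succ d ih =>
    intro F hd hF
    refine H0 F hF (eq_C_of_pderiv F fun k => ?_)
    have h1 : Matrix.vecMul (fun k => aeval σ (pderiv k F)) (jac σ) = 0 := by
      ext1 m
      have h2 := pderiv_aeval σ F m
      rw [hF, map_zero] at h2
      exact h2.symm
    have h2 := Matrix.eq_zero_of_vecMul_eq_zero h h1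
    exact ih _ (totalDegree_pderiv F k d hd) (congrFun h2 k)

end Pool.Agent.Helper28.Nij
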