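import Pool.Agent.Helper28.NijBell

/-!
# Members of the Bell family with different parameters are inequivalent
-/

open MvPolynomial

namespace Pool.Agent.Helper28.Nij

theorem coeff_pow_zero (g : Polynomial ℝ) (k : ℕ) : (g ^ k).coeff 0 = g.coeff 0 ^ k := by
  rw [Polynomial.coeff_zero_eq_eval_zero, Polynomial.coeff_zero_eq_eval_zero, Polynomial.eval_pow]

theorem coeff_pow_one (g : Polynomial ℝ) (k : ℕ) :
    (g ^ (k + 1)).coeff 1 = (k + 1) * g.coeff 0 ^ k * g.coeff 1 := by
  induction k with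
  | zero => simp
  | succ k ih =>
    rw [pow_succ, Polynomial.mul_coeff_one, ih, coeff_pow_zero]
    push_cast
    ring

theorem coeff_pow_two (g : Polynomial ℝ) (k : ℕ) :
    (g ^ (k + 2)).coeff 2 = (k + 2) * g.coeff 0 ^ (k + 1) * g.coeff 2 +
      ((k + 2) * (k + 1) / 2) * g.coeff 0 ^ k * g.coeff 1 ^ 2 := by
  have key : ∀ p q : Polynomial ℝ, (p * q).coeff 2 =
      p.coeff 0 * q.coeff 2 + p.coeff 1 * q.coeff 1 + p.coeff 2 * q.coeff 0 := by
    intro p q
    rw [Polynomial.coeff_mul, Finset.Nat.sum_antidiagonal_eq_sum_range_succ_mk]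
    simp [Finset.sum_range_succ]
  induction k with
  | zero =>
    rw [pow_succ, zero_add, pow_one, key]
    push_cast
    ring
  | succ k ih =>
    rw [show k + 1 + 2 = (k + 2) + 1 by ring, pow_succ, key, ih, coeff_pow_zero,
      coeff_pow_one]
    push_cast
    ring

/-- The polynomial `v_0 + v_1 u + ...`. -/
noncomputable def gv {n : ℕ} (v : Fin n → ℝ) : Polynomial ℝ :=
  ∑ i : Fin n, Polynomial.C (v i) * Polynomial.X ^ (i : ℕ)

theorem gv_coeff {n : ℕ} (v : Fin n → ℝ) (i : Fin n) : (gv v).coeff i = v i := by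
  simp only [gv, Polynomial.finsetSum_coeff, Polynomial.coeff_C_mul_X_pow]
  rw [Finset.sum_eq_single i]
  · simp
  · intro j _ hj
    rw [if_neg]
    intro h
    exact hj (Fin.ext (by omega))
  · simp

theorem eval_B {n : ℕ} (v : Fin n → ℝ) (k j : ℕ) :
    eval v (((gen n) ^ k).coeff (j + k)) = ((gv v) ^ k).coeff j := by
  have h1 : (gen n).map (eval v) = Polynomial.X * gv v := by
    rw [gen, gv, Polynomial.map_sum, Finset.mul_sum]
    refine Finset.sum_congr rfl fun i _ => ?_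
    rw [Polynomial.map_mul, Polynomial.map_C, Polynomial.map_pow, Polynomial.map_X, eval_X,
      pow_succ]
    ring
  rw [← Polynomial.coeff_map, Polynomial.map_pow, h1, mul_pow, Polynomial.coeff_X_pow_mul]

/-- Solving the three equations. -/
theorem solve_eqs (m : ℕ) (s1 s2 s3 t1 t2 t3 x y z w p q a b a' b' : ℝ) (hs1 : s1 ≠ 0)
    (hs2 : s2 ≠ 0) (ht1 : t1 ≠ 0) (ht2 : t2 ≠ 0) (ht3 : t3 ≠ 0)
    (es3 : s3 * (m + 4) = s2 * (a - (m + 3) * b)) (es2 : s2 * (m + 3) = s1 * (a - (m + 2) * b))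
    (et3 : t3 * (m + 4) = t2 * (a' - (m + 3) * b'))
    (et2 : t2 * (m + 3) = t1 * (a' - (m + 2) * b'))
    (h3 : ∀ e : ℝ, s3 * (x * e + y) ^ (m + 4) = t3 * e ^ (m + 4))
    (h2 : ∀ e : ℝ, s2 * ((m + 3) * (x * e + y) ^ (m + 2) * (z * e + w)) =
      t2 * ((m + 3) * e ^ (m + 2)))
    (h1 : ∀ e : ℝ, s1 * ((m + 2) * (x * e + y) ^ (m + 1) * (p * e + q) +
      ((m + 2) * (m + 1) / 2) * (x * e + y) ^ m * (z * e + w) ^ 2) =
      t1 * (((m + 2) * (m + 1) / 2) * e ^ m)) :
    a * b' = a' * b ∧ x ≠ 0 ∧ s3 * x ^ (m + 4) = t3 := by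
  have hs3 : s3 ≠ 0 := by
    intro h
    have := h3 1
    rw [h] at this
    simp at this
    exact ht3 this.symm
  have hb : y = 0 := by
    have := h3 0
    rw [mul_zero, zero_add, zero_pow (by omega), mul_zero] at this
    rcases mul_eq_zero.1 this with h | h
    · exact absurd h hs3
    · exact pow_eq_zero_iff (by omega) |>.1 h
  subst hb
  simp only [add_zero] at h1 h2 h3
  have e3 : s3 * x ^ (m + 4) = t3 := by simpa using h3 1
  have ha : x ≠ 0 := by
    intro h
    rw [h, zero_pow (by omega), mul_zero] at e3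
    exact ht3 e3.symm
  have hm3 : ((m : ℝ) + 3) ≠ 0 := by positivity
  have hm2 : ((m : ℝ) + 2) ≠ 0 := by positivity
  have hm1 : ((m : ℝ) + 1) ≠ 0 := by positivity
  have hm4 : ((m : ℝ) + 4) ≠ 0 := by positivity
  -- second equation
  have g2 : ∀ e : ℝ, e ≠ 0 → s2 * x ^ (m + 2) * (z * e + w) = t2 := by
    intro e he
    have := h2 e
    rw [mul_pow] at this
    have h5 : ((m : ℝ) + 3) * e ^ (m + 2) ≠ 0 := mul_ne_zero hm3 (pow_ne_zero _ he)
    apply mul_left_cancel₀ h5
    linear_combination this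
  have g2a := g2 1 one_ne_zero
  have g2b := g2 (-1) (by norm_num)
  have hc : z = 0 := by
    have h5 : s2 * x ^ (m + 2) * z = 0 := by linear_combination (1/2) * g2a - (1/2) * g2b
    exact (mul_eq_zero.1 h5).resolve_left (mul_ne_zero hs2 (pow_ne_zero _ ha))
  subst hc
  simp only [zero_mul, zero_add] at g2a h1
  -- third equation
  have g1 : ∀ e : ℝ, e ≠ 0 → s1 * x ^ m * ((m + 2) * (x * e) * (p * e + q) +
      ((m + 2) * (m + 1) / 2) * w ^ 2) = t1 * ((m + 2) * (m + 1) / 2) := by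
    intro e he
    have := h1 e
    rw [mul_pow, mul_pow] at this
    have h5 : e ^ m ≠ 0 := pow_ne_zero _ he
    apply mul_left_cancel₀ h5
    linear_combination this
  have g1a := g1 1 one_ne_zero
  have g1b := g1 (-1) (by norm_num)
  have g1c := g1 2 two_ne_zero
  have e1 : s1 * x ^ m * w ^ 2 = t1 := by
    have h5 : ((m : ℝ) + 2) * (m + 1) / 2 ≠ 0 := by positivity
    apply mul_left_cancel₀ h5
    linear_combination g1a + (1/3) * g1b - (1/3) * g1c
  have e2 : s2 * x ^ (m + 2) * w = t2 := g2a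
  -- the invariant
  have k1 : s3 * s1 * t2 ^ 2 = t3 * t1 * s2 ^ 2 := by
    rw [← e1, ← e2, ← e3]
    ring
  have k2 : (a - (m + 3) * b) * s1 * t2 = (a' - (m + 3) * b') * t1 * s2 := by
    apply mul_left_cancel₀ (mul_ne_zero hs2 ht2)
    linear_combination ((m : ℝ) + 4) * k1 - s1 * t2 ^ 2 * es3 + t1 * s2 ^ 2 * et3
  have k3 : (a - (m + 3) * b) * (a' - (m + 2) * b') =
      (a' - (m + 3) * b') * (a - (m + 2) * b) := by
    apply mul_left_cancel₀ (mul_ne_zero hs1 ht1)
    linear_combination ((m : ℝ) + 3) * k2 - (a - (m + 3) * b) * s1 * et2 +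
      (a' - (m + 3) * b') * t1 * es2
  exact ⟨by linarith, ha, e3⟩

theorem bell_ineq (m : ℕ) (a b c a' b' c' : ℝ) (hc : c ≠ 0) (hc' : c' ≠ 0)
    (hs : ∀ i : ℕ, 2 ≤ i → i < m + 4 → a ≠ i * b)
    (ht : ∀ i : ℕ, 2 ≤ i → i < m + 4 → a' ≠ i * b')
    (A : Matrix (Fin (m + 4)) (Fin (m + 4)) ℝ)
    (hA : ∀ i, aeval (fun j => ∑ l, C (A j l) * X l) (bell (m + 4) a b c i) =
      bell (m + 4) a' b' c' i) :
    a * b' = a' * b ∧ ∃ x : ℝ, x ≠ 0 ∧ cf a b c (m + 3) * x ^ (m + 4) = cf a' b' c' (m + 3) := by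
  have h0 : ∀ (i : Fin (m + 4)) (v : Fin (m + 4) → ℝ),
      eval (A.mulVec v) (bell (m + 4) a b c i) = eval v (bell (m + 4) a' b' c' i) := by
    intro i v
    rw [← hA i]
    have h1 : (A.mulVec v) = fun j => eval v (∑ l, C (A j l) * X l) := by
      funext j
      simp [Matrix.mulVec, dotProduct]
    rw [h1]
    generalize bell (m + 4) a b c i = F
    induction F using MvPolynomial.induction_on with
    | C a => simp
    | add p q hp hq => rw [map_add, map_add, map_add, hp, hq]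
    | mul_X p j hp => rw [map_mul, map_mul, map_mul, hp, eval_X, aeval_X]
  have h1 : ∀ (a b c : ℝ) (i j : ℕ) (h : i < m + 4) (v : Fin (m + 4) → ℝ),
      j + (i + 1) = m + 4 →
      eval v (bell (m + 4) a b c ⟨i, h⟩) = cf a b c i * ((gv v) ^ (i + 1)).coeff j := by
    intro a b c i j h v hj
    rw [bell, map_mul, eval_C]
    have h2 := eval_B v (i + 1) j
    rw [hj] at h2
    rw [← h2]
  -- the evaluation points
  let z0 : Fin (m + 4) := ⟨0, by omega⟩
  let z1 : Fin (m + 4) := ⟨1, by omega⟩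
  let z2 : Fin (m + 4) := ⟨2, by omega⟩
  have z01 : z0 ≠ z1 := by simp [z0, z1]
  have z02 : z0 ≠ z2 := by simp [z0, z2]
  have z12 : z1 ≠ z2 := by simp [z1, z2]
  let w : ℝ → Fin (m + 4) → ℝ := fun e => Pi.single z0 e + Pi.single z1 1
  have w0 : ∀ e, (gv (w e)).coeff 0 = e := by
    intro e
    rw [show (0 : ℕ) = (z0 : ℕ) from rfl, gv_coeff]
    simp [w, z01]
  have w1 : ∀ e, (gv (w e)).coeff 1 = 1 := by
    intro e
    rw [show (1 : ℕ) = (z1 : ℕ) from rfl, gv_coeff]
    simp [w, z01.symm]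
  have w2 : ∀ e, (gv (w e)).coeff 2 = 0 := by
    intro e
    rw [show (2 : ℕ) = (z2 : ℕ) from rfl, gv_coeff]
    simp [w, z02.symm, z12.symm]
  have wA : ∀ e j, (A.mulVec (w e)) j = A j z0 * e + A j z1 := by
    intro e j
    simp only [w]
    rw [Matrix.mulVec_add, Pi.add_apply, Matrix.mulVec_single, Matrix.mulVec_single]
    simp [mul_comm]
  have wA0 : ∀ e, (gv (A.mulVec (w e))).coeff 0 = A z0 z0 * e + A z0 z1 := by
    intro e
    rw [← wA e z0, ← gv_coeff (A.mulVec (w e)) z0]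
  have wA1 : ∀ e, (gv (A.mulVec (w e))).coeff 1 = A z1 z0 * e + A z1 z1 := by
    intro e
    rw [← wA e z1, ← gv_coeff (A.mulVec (w e)) z1]
  have wA2 : ∀ e, (gv (A.mulVec (w e))).coeff 2 = A z2 z0 * e + A z2 z1 := by
    intro e
    rw [← wA e z2, ← gv_coeff (A.mulVec (w e)) z2]
  have c3 := fun a b c => cf_succ a b c (m + 1)
  have c2 := fun a b c => cf_succ a b c m
  have key := solve_eqs m (cf a b c (m + 1)) (cf a b c (m + 2)) (cf a b c (m + 3))
    (cf a' b' c' (m + 1)) (cf a' b' c' (m + 2))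
    (cf a' b' c' (m + 3)) (A z0 z0) (A z0 z1) (A z1 z0) (A z1 z1) (A z2 z0) (A z2 z1) a b a' b'
    (cf_ne_zero a b c hc hs _ (by omega)) (cf_ne_zero a b c hc hs _ (by omega))
    (cf_ne_zero a' b' c' hc' ht _ (by omega))
    (cf_ne_zero a' b' c' hc' ht _ (by omega)) (cf_ne_zero a' b' c' hc' ht _ (by omega))
    (by
      have := c3 a b c
      push_cast at this
      linear_combination this)
    (by
      have := c2 a b c
      linear_combination this)
    (by
      have := c3 a' b' c'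
      push_cast at this
      linear_combination this)
    (by
      have := c2 a' b' c'
      linear_combination this)
    (by
      intro e
      have := h0 ⟨m + 3, by omega⟩ (w e)
      rw [h1 a b c (m + 3) 0 _ _ (by omega), h1 a' b' c' (m + 3) 0 _ _ (by omega),
        coeff_pow_zero, coeff_pow_zero, w0, wA0] at this
      exact this)
    (by
      intro e
      have := h0 ⟨m + 2, by omega⟩ (w e)
      rw [h1 a b c (m + 2) 1 _ _ (by omega), h1 a' b' c' (m + 2) 1 _ _ (by omega),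
        coeff_pow_one, coeff_pow_one, w0, w1, wA0, wA1] at this
      push_cast at this
      linear_combination this)
    (by
      intro e
      have := h0 ⟨m + 1, by omega⟩ (w e)
      rw [h1 a b c (m + 1) 2 _ _ (by omega), h1 a' b' c' (m + 1) 2 _ _ (by omega),
        coeff_pow_two, coeff_pow_two, w0, w1, w2, wA0, wA1, wA2] at this
      push_cast at this
      linear_combination this)
  exact ⟨key.1, A z0 z0, key.2.1, key.2.2⟩

/-- Real `n`-th roots. -/
theorem exists_root (n : ℕ) (hn : n ≠ 0) (x : ℝ) (h : Odd n ∨ 0 < x) : ∃ r : ℝ, r ^ n = x := by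
  rcases le_total 0 x with hx | hx
  · exact ⟨x ^ ((n : ℝ)⁻¹), Real.rpow_inv_natCast_pow hx hn⟩
  · rcases h with h | h
    · refine ⟨-((-x) ^ ((n : ℝ)⁻¹)), ?_⟩
      rw [h.neg_pow, Real.rpow_inv_natCast_pow (by linarith) hn, neg_neg]
    · exact absurd h (not_lt.2 hx)

/-- The parameters are proportional. -/
theorem exists_scale (n : ℕ) (hn : 4 ≤ n) (a b a' b' : ℝ)
    (hs : ∀ i : ℕ, 2 ≤ i → i < n → a ≠ i * b) (ht : ∀ i : ℕ, 2 ≤ i → i < n → a' ≠ i * b')
    (h : a * b' = a' * b) : ∃ s : ℝ, s ≠ 0 ∧ a' = s * a ∧ b' = s * b := by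
  have h2 := hs 2 le_rfl (by omega)
  have h2' := ht 2 le_rfl (by omega)
  push_cast at h2 h2'
  have k : a - 2 * b ≠ 0 := sub_ne_zero.2 h2
  have k' : a' - 2 * b' ≠ 0 := sub_ne_zero.2 h2'
  refine ⟨(a' - 2 * b') / (a - 2 * b), div_ne_zero k' k, ?_, ?_⟩
  · field_simp
    linear_combination 2 * h
  · field_simp
    linear_combination h

theorem cf_scale (a b c s c' : ℝ) (hc : c ≠ 0) (i : ℕ) :
    cf (s * a) (s * b) c' (i + 1) = c' / c * s ^ i * cf a b c (i + 1) := by
  have h1 : (∏ j ∈ Finset.range i, (s * a - ((j : ℝ) + 2) * (s * b))) =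
      s ^ i * ∏ j ∈ Finset.range i, (a - ((j : ℝ) + 2) * b) := by
    rw [← Finset.card_range i, ← Finset.prod_const, Finset.card_range, ← Finset.prod_mul_distrib]
    exact Finset.prod_congr rfl fun j _ => by ring
  rw [cf, cf, h1]
  generalize (∏ j ∈ Finset.range i, (a - ((j : ℝ) + 2) * b)) = P
  field_simp

theorem scale_B {n : ℕ} (s r : ℝ) (ρ : Fin n → ℝ)
    (hρ : ∀ j : Fin n, (j : ℕ) + 1 < n → ρ j = s * r ^ ((j : ℕ) + 1)) (k : ℕ) :
    (∀ N, N < n → aeval (fun j => C (ρ j) * X j) (B n k N) = C (s ^ k * r ^ N) * B n k N) ∧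
      (2 ≤ k → aeval (fun j => C (ρ j) * X j) (B n k n) = C (s ^ k * r ^ n) * B n k n) := by
  have hy : ∀ N, N < n → aeval (fun j => C (ρ j) * X j) ((gen n).coeff N) =
      C (s * r ^ N) * (gen n).coeff N := by
    intro N hN
    rcases Nat.eq_zero_or_pos N with rfl | h
    · rw [gen_coeff_zero, map_zero, mul_zero]
    · obtain ⟨M, rfl⟩ := Nat.exists_eq_add_of_le' h
      have h1 := gen_coeff_succ (⟨M, by omega⟩ : Fin n)
      simp only at h1
      rw [h1, aeval_X, hρ _ (by simpa using hN)]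
  induction k with
  | zero =>
    refine ⟨fun N hN => ?_, fun h => absurd h (by omega)⟩
    rw [B, pow_zero, Polynomial.coeff_one]
    split_ifs with h
    · subst h; simp
    · simp
  | succ k ih =>
    have step : ∀ p : ℕ × ℕ, p.1 < n → p.2 < n →
        aeval (fun j => C (ρ j) * X j) ((gen n).coeff p.1 * B n k p.2) =
        C (s ^ (k + 1) * r ^ (p.1 + p.2)) * ((gen n).coeff p.1 * B n k p.2) := by
      intro p h1 h2
      rw [map_mul, hy _ h1, ih.1 _ h2]
      have h3 : (C (s ^ (k + 1) * r ^ (p.1 + p.2)) : MvPolynomial (Fin n) ℝ) =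
          C (s * r ^ p.1) * C (s ^ k * r ^ p.2) := by
        rw [← map_mul]
        congr 1
        ring
      rw [h3]
      ring
    refine ⟨fun N hN => ?_, fun hk => ?_⟩
    · rw [B_succ, map_sum, Finset.mul_sum]
      refine Finset.sum_congr rfl fun p hp => ?_
      have hp' := Finset.HasAntidiagonal.mem_antidiagonal.1 hp
      rw [step p (by omega) (by omega), hp']
    · rw [B_succ, map_sum, Finset.mul_sum]
      refine Finset.sum_congr rfl fun p hp => ?_
      have hp' := Finset.HasAntidiagonal.mem_antidiagonal.1 hp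
      by_cases h1 : p.1 < n
      · by_cases h2 : p.2 < n
        · rw [step p h1 h2, hp']
        · have h3 : p.1 = 0 := by omega
          rw [h3, gen_coeff_zero, zero_mul, map_zero, mul_zero]
      · have h2 : p.2 = 0 := by omega
        rw [h2, B_eq_zero k 0 (by omega), mul_zero, map_zero, mul_zero]

theorem bell_equiv (n : ℕ) (hn : 4 ≤ n) (a b c s c' : ℝ) (hc : c ≠ 0) (hc' : c' ≠ 0)
    (hs : s ≠ 0) (h : Odd n ∨ 0 < c * c') :
    LinEquiv (bell n a b c) (bell n (s * a) (s * b) c') := by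
  obtain ⟨r, hr⟩ := exists_root n (by omega) (c' / c * (s ^ 2)⁻¹) (by
    rcases h with h | h
    · exact Or.inl h
    · refine Or.inr (mul_pos ?_ (by positivity))
      have : c' / c = (c * c') / c ^ 2 := by field_simp
      rw [this]
      positivity)
  have hr0 : r ≠ 0 := by
    rintro rfl
    rw [zero_pow (by omega)] at hr
    have : c' / c * (s ^ 2)⁻¹ ≠ 0 := by positivity
    exact this hr.symm
  let ρ : Fin n → ℝ := fun j => if (j : ℕ) + 1 = n then 1 else s * r ^ ((j : ℕ) + 1)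
  have hρ : ∀ j : Fin n, (j : ℕ) + 1 < n → ρ j = s * r ^ ((j : ℕ) + 1) := by
    intro j hj
    simp only [ρ]
    rw [if_neg (by omega)]
  have hρ' : ∀ j : Fin n, (j : ℕ) + 1 = n → ρ j = 1 := by
    intro j hj
    simp only [ρ]
    rw [if_pos hj]
  refine ⟨Matrix.diagonal ρ, ?_, ?_⟩
  · rw [Matrix.det_diagonal, isUnit_iff_ne_zero, Finset.prod_ne_zero_iff]
    intro j _
    simp only [ρ]
    split_ifs
    · exact one_ne_zero
    · positivity
  · intro i
    have h1 : (fun j => ∑ l, C (Matrix.diagonal ρ j l) * X l) =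
        fun j => (C (ρ j) * X j : MvPolynomial (Fin n) ℝ) := by
      funext j
      rw [Finset.sum_eq_single j]
      · rw [Matrix.diagonal_apply_eq]
      · intro l _ hl
        rw [Matrix.diagonal_apply_ne _ hl.symm, map_zero, zero_mul]
      · simp
    rw [h1, bell, bell, map_mul, aeval_C, algebraMap_eq]
    rcases Nat.eq_zero_or_pos (i : ℕ) with h0 | h0
    · rw [h0]
      have h2 := gen_coeff_succ (⟨n - 1, by omega⟩ : Fin n)
      simp only [show n - 1 + 1 = n by omega] at h2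
      rw [zero_add, pow_one, h2, aeval_X, hρ' _ (by simp only; omega), map_one, one_mul]
      rfl
    · obtain ⟨k, hk⟩ := Nat.exists_eq_add_of_le' h0
      rw [hk]
      have h2 := (scale_B s r ρ hρ (k + 1 + 1)).2 (by omega)
      rw [B] at h2
      rw [h2, ← mul_assoc, ← map_mul, cf_scale a b c s c' hc, hr]
      congr 2
      field_simp
      ring

theorem bell_iff (n : ℕ) (hn : 4 ≤ n) (a b c a' b' c' : ℝ) (hc : c ≠ 0) (hc' : c' ≠ 0)
    (hs : ∀ i : ℕ, 2 ≤ i → i < n → a ≠ i * b) (ht : ∀ i : ℕ, 2 ≤ i → i < n → a' ≠ i * b') :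
    LinEquiv (bell n a b c) (bell n a' b' c') ↔ a * b' = a' * b ∧ (Odd n ∨ 0 < c * c') := by
  constructor
  · rintro ⟨A, -, hA⟩
    obtain ⟨m, rfl⟩ := Nat.exists_eq_add_of_le' hn
    obtain ⟨h1, x, hx, h2⟩ := bell_ineq m a b c a' b' c' hc hc' hs ht A hA
    refine ⟨h1, ?_⟩
    rcases Nat.even_or_odd (m + 4) with he | ho
    · right
      obtain ⟨s, hs0, rfl, rfl⟩ := exists_scale (m + 4) hn a b a' b' hs ht h1
      rw [cf_scale a b c s c' hc] at h2
      have h3 := cf_ne_zero a b c hc hs (m + 3) (by omega)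
      have h4 : x ^ (m + 4) = c' / c * s ^ (m + 2) := by
        apply mul_left_cancel₀ h3
        linear_combination h2
      have h5 : 0 < x ^ (m + 4) := he.pow_pos hx
      have h6 : 0 < s ^ (m + 2) := by
        have : Even (m + 2) := by
          rcases he with ⟨u, hu⟩
          exact ⟨u - 1, by omega⟩
        exact this.pow_pos hs0
      rw [h4] at h5
      have h7 : 0 < c' / c := by
        by_contra h8
        have := mul_nonpos_of_nonpos_of_nonneg (not_lt.1 h8) h6.le
        linarith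
      have h8 : c * c' = (c' / c) * c ^ 2 := by field_simp
      rw [h8]
      positivity
    · exact Or.inl ho
  · rintro ⟨h1, h2⟩
    obtain ⟨s, hs0, rfl, rfl⟩ := exists_scale n hn a b a' b' hs ht h1
    exact bell_equiv n hn a b c s c' hc hc' hs0 h2

end Pool.Agent.Helper28.Nij
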